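import Pool.Agent.EGF.Stmts

/-!
Squad EGF, row FIN: the theorem.
-/

set_option autoImplicit false

open Finset Filter

namespace Pool.Agent.EGF.H23

/-- the power of the parameter `Q` is small -/
theorem pow_small (N : ℕ) (e : ℝ) (he : 0 < e) (hN : e * N < 1) :
    ∀ᶠ x : ℝ in atTop, ((⌈2048 * x ^ e⌉₊ : ℕ) : ℝ) ^ N ≤ x := by
  have h1 := tendsto_rpow_atTop (y := 1 - e * N) (by linarith)
  filter_upwards [h1.eventually_ge_atTop ((2049 : ℝ) ^ N), eventually_ge_atTop (1 : ℝ)] with x hx hx1
  have hx0 : 0 < x := by linarith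
  have h2 : 1 ≤ x ^ e := Real.one_le_rpow hx1 he.le
  have h3 : ((⌈2048 * x ^ e⌉₊ : ℕ) : ℝ) ≤ 2049 * x ^ e := by
    have h4 := Nat.ceil_lt_add_one (a := 2048 * x ^ e) (by positivity)
    linarith
  calc ((⌈2048 * x ^ e⌉₊ : ℕ) : ℝ) ^ N ≤ (2049 * x ^ e) ^ N :=
        pow_le_pow_left₀ (Nat.cast_nonneg _) h3 N
    _ = 2049 ^ N * x ^ (e * N) := by
        rw [mul_pow, ← Real.rpow_mul_natCast hx0.le]
    _ ≤ x ^ (1 - e * N) * x ^ (e * N) :=
        mul_le_mul_of_nonneg_right hx (Real.rpow_nonneg hx0.le _)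
    _ = x := by
        rw [← Real.rpow_add hx0, sub_add_cancel, Real.rpow_one]

/-- the logarithm is small -/
theorem log_small (e : ℝ) (he : 0 < e) : ∀ᶠ x : ℝ in atTop, Real.log x ≤ x ^ e := by
  filter_upwards [(isLittleO_log_rpow_atTop he).bound one_pos, eventually_ge_atTop (1 : ℝ)] with x hx hx1
  rw [one_mul, Real.norm_of_nonneg (Real.log_nonneg hx1),
    Real.norm_of_nonneg (Real.rpow_nonneg (by linarith) _)] at hx
  exact hx

/-- the square is small -/
theorem sq_small (p : ℕ) : ∀ᶠ x : ℝ in atTop, 4 * ((p : ℝ) + 1) * x ^ 2 ≤ Real.exp x := by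
  have h0 : (0 : ℝ) < 1 / (4 * ((p : ℝ) + 1)) := by positivity
  filter_upwards [(Real.isLittleO_pow_exp_atTop (n := 2)).bound h0] with x hx
  rw [Real.norm_of_nonneg (by positivity), Real.norm_of_nonneg (Real.exp_pos x).le,
    one_div, inv_mul_eq_div, le_div_iff₀ (by positivity)] at hx
  linarith

theorem pal_four {V : Type} [DecidableEq V] {k : ℕ} {c : V → V → Fin k} {U : Finset V}
    (hsym : ∀ x y, c x y = c y x) (h : ∀ S ⊆ U, S.card = 4 → 3 ≤ (pal c S).card) : No4 c U := by
  intro x hx x' hx' y hy y' hy' h1 h2 h3 h4 h5 h6 h7 h8 h9 h10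
  have hcard : ({x, x', y, y'} : Finset V).card = 4 := by
    rw [Finset.card_insert_of_notMem, Finset.card_insert_of_notMem, Finset.card_pair h2]
    · simp only [Finset.mem_insert, Finset.mem_singleton, not_or]
      exact ⟨h5, h6⟩
    · simp only [Finset.mem_insert, Finset.mem_singleton, not_or]
      exact ⟨h1, h3, h4⟩
  have hsub : ({x, x', y, y'} : Finset V) ⊆ U := by
    intro z hz
    simp only [Finset.mem_insert, Finset.mem_singleton] at hz
    rcases hz with rfl | rfl | rfl | rfl
    · exact hx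
    · exact hx'
    · exact hy
    · exact hy'
  have h11 := h _ hsub hcard
  have h12 : pal c ({x, x', y, y'} : Finset V) ⊆ {c x x', c x y} := by
    intro a ha
    obtain ⟨q, hq, rfl⟩ := Finset.mem_image.mp ha
    obtain ⟨q1, q2⟩ := q
    rw [Finset.mem_filter, Finset.mem_product] at hq
    obtain ⟨⟨hq1, hq2⟩, hne⟩ := hq
    simp only [Finset.mem_insert, Finset.mem_singleton] at hq1 hq2 ⊢
    have hne' : q1 ≠ q2 := hne
    have e1 : c x' x = c x x' := hsym x' x
    have e2 : c y y' = c x x' := h7.symm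
    have e3 : c y' y = c x x' := (hsym y' y).trans h7.symm
    have e4 : c x y' = c x y := h8.symm
    have e5 : c x' y = c x y := h9.symm
    have e6 : c x' y' = c x y := h10.symm
    have e7 : c y x = c x y := hsym y x
    have e8 : c y' x = c x y := (hsym y' x).trans h8.symm
    have e9 : c y x' = c x y := (hsym y x').trans h9.symm
    have e10 : c y' x' = c x y := (hsym y' x').trans h10.symm
    rcases hq1 with h | h | h | h <;> rcases hq2 with h' | h' | h' | h' <;>
      first
        | exact absurd (h.trans h'.symm) hne'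
        | (rw [h, h'];
           first
             | exact Or.inl rfl
             | exact Or.inr rfl
             | exact Or.inl e1
             | exact Or.inl e2
             | exact Or.inl e3
             | exact Or.inr e4
             | exact Or.inr e5
             | exact Or.inr e6
             | exact Or.inr e7
             | exact Or.inr e8
             | exact Or.inr e9
             | exact Or.inr e10)
  have h13 := (Finset.card_le_card h12).trans Finset.card_le_two
  omega

/-- **FIN** -/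
theorem fin (mai : MaiStmt) (red : RedStmt) : FinStmt := by
  have he : (0 : ℝ) < 1 / 60000 := by norm_num
  have hN : (1 / 60000 : ℝ) * (50000 : ℕ) < 1 := by norm_num
  obtain ⟨e, hee⟩ : ∃ e : ℝ, e = 1 / 60000 := ⟨_, rfl⟩
  rw [← hee] at he hN
  refine ⟨e, he, fun p hp => ?_⟩
  have hlog : Tendsto (fun k : ℕ => Real.log (k : ℝ)) atTop atTop :=
    Real.tendsto_log_atTop.comp tendsto_natCast_atTop_atTop
  have hev := ((pow_small 50000 e he hN).and ((log_small e he).and ((sq_small p).and
    (eventually_ge_atTop (1 : ℝ)))))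
  obtain ⟨k₀, hk₀⟩ := eventually_atTop.mp (hlog.eventually hev)
  refine ⟨k₀, fun k hk n hn => ?_⟩
  obtain ⟨hA, hB, hD, hE⟩ := hk₀ k hk
  have hk0 : (0 : ℝ) < k := by
    by_contra hneg
    have h1 : (k : ℝ) = 0 := le_antisymm (not_lt.mp hneg) (Nat.cast_nonneg k)
    rw [h1, Real.log_zero] at hE
    linarith
  have hexp : Real.exp (Real.log k) = k := Real.exp_log hk0
  rw [hexp] at hD
  set x : ℝ := Real.log k with hx
  have hx0 : 0 < x := by linarith
  have hl2 : Real.log 2 ≤ 1 := by
    have h1 := Real.log_two_lt_d9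
    linarith
  have hlog2k : Real.log (2 * k) ≤ 2 * x := by
    rw [Real.log_mul (by norm_num) hk0.ne', ← hx]
    linarith
  have hxe1 : 1 ≤ x ^ e := Real.one_le_rpow hE he.le
  have hxe0 : 0 < x ^ e := by linarith
  have hxex : x ^ e ≤ x := by
    have h1 : x ^ e ≤ x ^ (1 : ℝ) := Real.rpow_le_rpow_of_exponent_le hE (by rw [hee]; norm_num)
    rwa [Real.rpow_one] at h1
  -- the basic inequality
  have hbase : ((p : ℝ) + 1) * Real.log (2 * k) ≤ k / (2 * x ^ e) := by
    rw [le_div_iff₀ (by positivity)]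
    have h1 : Real.log (2 * k) * (2 * x ^ e) ≤ (2 * x) * (2 * x) := by
      apply mul_le_mul hlog2k (by linarith) (by positivity) (by linarith)
    have h2 : (0 : ℝ) < (p : ℝ) + 1 := by positivity
    nlinarith
  have hk1 : (1 : ℝ) ≤ k := by
    have h1 : (1 : ℝ) ≤ ((k : ℕ) : ℝ) := by
      have h2 : 0 < k := by exact_mod_cast hk0
      exact_mod_cast h2
    exact h1
  have hlog0 : Real.log 2 ≤ Real.log (2 * k) := Real.log_le_log (by norm_num) (by linarith)
  have hl2p : 0 < Real.log 2 := Real.log_pos (by norm_num)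
  by_contra hcon
  unfold Forces at hcon
  push Not at hcon
  obtain ⟨c, hsym, hc⟩ := hcon
  have hc' : ∀ S : Finset (Fin n), S.card = p → p - 1 ≤ (pal c S).card := by
    intro S hS
    have h1 := hc S hS
    omega
  have h2k : (0 : ℝ) < 2 * k := by positivity
  -- the number of vertices is large
  have hhalf : (k : ℝ) / (2 * x ^ e) = k / x ^ e / 2 := by
    field_simp
  have hbig : (2 : ℝ) * (2 * k) ^ p ≤ n := by
    refine le_trans ?_ hn
    have h1 : (2 : ℝ) * (2 * k) ^ p = Real.exp (Real.log 2 + p * Real.log (2 * k)) := by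
      rw [Real.exp_add, Real.exp_log (by norm_num), mul_comm (p : ℝ), Real.exp_mul,
        Real.exp_log h2k, Real.rpow_natCast]
    rw [h1]
    apply Real.exp_le_exp.mpr
    have h3 : (0 : ℝ) < k / x ^ e := by positivity
    nlinarith
  have hcardV : 2 * (2 * k) ^ p ≤ Fintype.card (Fin n) := by
    rw [Fintype.card_fin]
    exact_mod_cast hbig
  obtain ⟨U, hU, hUq⟩ := red (Fin n) k c p hsym (by omega) hc' hcardV
  rw [Fintype.card_fin] at hU
  have hn0 : (0 : ℝ) < n := lt_of_lt_of_le (Real.exp_pos _) hn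
  have hUR : (n : ℝ) ≤ (2 * k) ^ p * U.card := by exact_mod_cast hU
  have hU0 : (0 : ℝ) < U.card := by
    by_contra hneg
    have h1 : (U.card : ℝ) = 0 := le_antisymm (not_lt.mp hneg) (Nat.cast_nonneg _)
    rw [h1, mul_zero] at hUR
    linarith
  have hlogn : k / x ^ e ≤ Real.log n := by
    rw [Real.le_log_iff_exp_le hn0]
    exact hn
  have hlogU : Real.log n ≤ p * Real.log (2 * k) + Real.log U.card := by
    have h1 := Real.log_le_log hn0 hUR
    rwa [Real.log_mul (by positivity) hU0.ne', Real.log_pow] at h1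
  have hxk : (1 / (2 * x ^ e)) * k = k / x ^ e / 2 := by
    rw [← hhalf, one_div, inv_mul_eq_div]
  refine mai (1 / (2 * x ^ e)) ⌈2048 * x ^ e⌉₊ (by positivity) ?_ ?_ k ?_ ?_ (Fin n) c U hsym
    (pal_four hsym fun S hS h4 => ?_) (fun S hS h32 => ?_) ?_
  · rw [div_le_one (by positivity)]
    linarith
  · have h1 : 1024 / (1 / (2 * x ^ e)) = 2048 * x ^ e := by
      field_simp
      norm_num
    rw [h1]
    exact Nat.le_ceil _
  · rw [← hexp]
    exact Real.exp_le_exp.mpr hA
  · have h1 : x ^ e + 1 ≤ ((⌈2048 * x ^ e⌉₊ : ℕ) : ℝ) := by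
      have h2 := Nat.le_ceil (2048 * x ^ e)
      linarith
    have h3 : x ≤ Real.exp (x ^ e) := by
      rw [← Real.log_le_iff_le_exp hx0]
      exact hB
    have h4 : (2 : ℝ) ≤ Real.exp 1 := by
      have h5 := Real.add_one_le_exp (1 : ℝ)
      linarith
    calc Real.log (2 * k) ≤ 2 * x := hlog2k
      _ = x * 2 := by ring
      _ ≤ Real.exp (x ^ e) * Real.exp 1 := mul_le_mul h3 h4 (by norm_num) (Real.exp_pos _).le
      _ = Real.exp (x ^ e + 1) := (Real.exp_add _ _).symm
      _ ≤ _ := Real.exp_le_exp.mpr h1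
  · exact hUq 4 le_rfl (by omega) S hS h4
  · exact hUq 32 (by norm_num) hp S hS h32
  · rw [hxk]
    rw [hhalf] at hbase
    have h1 : (p : ℝ) * Real.log (2 * k) ≤ ((p : ℝ) + 1) * Real.log (2 * k) := by
      nlinarith
    linarith

end Pool.Agent.EGF.H23
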