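import Pool.Agent.EGF.StmtsP
import Pool.Agent.Helper23_EGF.FIN

/-!
Squad EGF, row FIN2: the theorem (power saving).
-/

set_option autoImplicit false

open Finset Filter

namespace Pool.Agent.EGF.H23

/-- the product `4 (p + 1)` is small -/
theorem const_small (p : ℕ) (e : ℝ) (he : 2 * e < 1) :
    ∀ᶠ x : ℝ in atTop, 4 * ((p : ℝ) + 1) ≤ x ^ (1 - 2 * e) :=
  (tendsto_rpow_atTop (y := 1 - 2 * e) (by linarith)).eventually_ge_atTop _

/-- **FIN2** -/
theorem fin2 (mai2 : Mai2Stmt) (red : RedStmt) : Fin2Stmt := by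
  have he : (0 : ℝ) < 1 / 200000 := by norm_num
  have hN : (1 / 200000 : ℝ) * (100000 : ℕ) < 1 := by norm_num
  have he2 : 2 * (1 / 200000 : ℝ) < 1 := by norm_num
  obtain ⟨e, hee⟩ : ∃ e : ℝ, e = 1 / 200000 := ⟨_, rfl⟩
  rw [← hee] at he hN he2
  refine ⟨e, he, fun p hp => ?_⟩
  have hcast : Tendsto (fun k : ℕ => (k : ℝ)) atTop atTop := tendsto_natCast_atTop_atTop
  have hev := ((pow_small 100000 e he hN).and ((log_small e he).and ((const_small p e he2).and
    (eventually_ge_atTop (1 : ℝ)))))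
  obtain ⟨k₀, hk₀⟩ := eventually_atTop.mp (hcast.eventually hev)
  refine ⟨k₀, fun k hk n hn => ?_⟩
  obtain ⟨hA, hB, hD, hE⟩ := hk₀ k hk
  have hk0 : (0 : ℝ) < k := by linarith
  have hl2 : Real.log 2 ≤ 1 := by
    have h1 := Real.log_two_lt_d9
    linarith
  have hxe1 : 1 ≤ (k : ℝ) ^ e := Real.one_le_rpow hE he.le
  have hxe0 : 0 < (k : ℝ) ^ e := by linarith
  have hlog2k : Real.log (2 * k) ≤ 1 + (k : ℝ) ^ e := by
    rw [Real.log_mul (by norm_num) hk0.ne']
    linarith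
  have hmain : (k : ℝ) ^ (1 - e) = k / (k : ℝ) ^ e := by
    rw [Real.rpow_sub hk0, Real.rpow_one]
  have hmain2 : (k : ℝ) ^ (1 - e) = (k : ℝ) ^ (1 - 2 * e) * (k : ℝ) ^ e := by
    rw [← Real.rpow_add hk0]
    congr 1
    ring
  have hpos : (0 : ℝ) < (k : ℝ) ^ (1 - e) := Real.rpow_pos_of_pos hk0 _
  -- the basic inequality
  have hbase : ((p : ℝ) + 1) * Real.log (2 * k) ≤ (k : ℝ) ^ (1 - e) / 2 := by
    have h2 : (0 : ℝ) < (p : ℝ) + 1 := by positivity
    have h3 : ((p : ℝ) + 1) * Real.log (2 * k) ≤ ((p : ℝ) + 1) * (2 * (k : ℝ) ^ e) :=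
      mul_le_mul_of_nonneg_left (by linarith) h2.le
    have h4 : 4 * ((p : ℝ) + 1) * (k : ℝ) ^ e ≤ (k : ℝ) ^ (1 - 2 * e) * (k : ℝ) ^ e :=
      mul_le_mul_of_nonneg_right hD hxe0.le
    rw [← hmain2] at h4
    linarith
  have hlog0 : Real.log 2 ≤ Real.log (2 * k) := Real.log_le_log (by norm_num) (by linarith)
  have hl2p : 0 < Real.log 2 := Real.log_pos (by norm_num)
  by_contra hcon
  unfold Forces at hcon
  push Not at hcon
  obtain ⟨c, hsym, hc⟩ := hcon
  have hc' : ∀ S : Finset (Fin n), S.card = p → p - 1 ≤ (pal c S).card := by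
    intro S hS
    have h1 := hc S hS
    omega
  have h2k : (0 : ℝ) < 2 * k := by positivity
  -- the number of vertices is large
  have hbig : (2 : ℝ) * (2 * k) ^ p ≤ n := by
    refine le_trans ?_ hn
    have h1 : (2 : ℝ) * (2 * k) ^ p = Real.exp (Real.log 2 + p * Real.log (2 * k)) := by
      rw [Real.exp_add, Real.exp_log (by norm_num), mul_comm (p : ℝ), Real.exp_mul,
        Real.exp_log h2k, Real.rpow_natCast]
    rw [h1]
    apply Real.exp_le_exp.mpr
    nlinarith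
  have hcardV : 2 * (2 * k) ^ p ≤ Fintype.card (Fin n) := by
    rw [Fintype.card_fin]
    exact_mod_cast hbig
  obtain ⟨U, hU, hUq⟩ := red (Fin n) k c p hsym (by omega) hc' hcardV
  rw [Fintype.card_fin] at hU
  have hn0 : (0 : ℝ) < n := lt_of_lt_of_le (Real.exp_pos _) hn
  have hUR : (n : ℝ) ≤ (2 * k) ^ p * U.card := by exact_mod_cast hU
  have hU0 : (0 : ℝ) < U.card := by
    by_contra hneg
    have h1 : (U.card : ℝ) = 0 := le_antisymm (not_lt.mp hneg) (Nat.cast_nonneg _)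
    rw [h1, mul_zero] at hUR
    linarith
  have hlogn : (k : ℝ) ^ (1 - e) ≤ Real.log n := by
    rw [Real.le_log_iff_exp_le hn0]
    exact hn
  have hlogU : Real.log n ≤ p * Real.log (2 * k) + Real.log U.card := by
    have h1 := Real.log_le_log hn0 hUR
    rwa [Real.log_mul (by positivity) hU0.ne', Real.log_pow] at h1
  have hxk : (1 / (2 * (k : ℝ) ^ e)) * k = (k : ℝ) ^ (1 - e) / 2 := by
    rw [hmain]
    field_simp
  refine mai2 (1 / (2 * (k : ℝ) ^ e)) ⌈2048 * (k : ℝ) ^ e⌉₊ (by positivity) ?_ ?_ k hA ?_ (Fin n)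
    c U hsym (pal_four hsym fun S hS h4 => ?_) (fun S hS h32 => ?_) ?_
  · rw [div_le_one (by positivity)]
    linarith
  · have h1 : 1024 / (1 / (2 * (k : ℝ) ^ e)) = 2048 * (k : ℝ) ^ e := by
      field_simp
      norm_num
    rw [h1]
    exact Nat.le_ceil _
  · have h2 := Nat.le_ceil (2048 * (k : ℝ) ^ e)
    linarith
  · exact hUq 4 le_rfl (by omega) S hS h4
  · exact hUq 32 (by norm_num) hp S hS h32
  · rw [hxk]
    have h1 : (p : ℝ) * Real.log (2 * k) ≤ ((p : ℝ) + 1) * Real.log (2 * k) := by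
      nlinarith
    linarith

end Pool.Agent.EGF.H23
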