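import Pool.Agent.EGF.StmtsV

set_option autoImplicit false

open Finset

namespace Pool.Agent.EGF.H23

theorem spt_anti {V : Type} [DecidableEq V] {k : ℕ} (c : V → V → Fin k) (q : ℝ)
    (W : Finset V) {T T' : ℝ} (h : T' ≤ T) : spt c q W T ⊆ spt c q W T' := by
  classical
  intro g hg
  unfold spt at hg ⊢
  rw [Finset.mem_filter] at hg ⊢
  obtain ⟨h1, A, hA, B, hB, hd, ha, hb, hq⟩ := hg
  exact ⟨h1, A, hA, B, hB, hd, h.trans ha, h.trans hb, hq⟩

theorem logcard_mono {α : Type} {s t : Finset α} (h : s ⊆ t) :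
    Real.log s.card ≤ Real.log t.card := by
  rcases Nat.eq_zero_or_pos s.card with h0 | h0
  · rw [h0, Nat.cast_zero, Real.log_zero]
    exact Real.log_natCast_nonneg _
  · exact Real.log_le_log (by exact_mod_cast h0) (by exact_mod_cast Finset.card_le_card h)

theorem nrs_aux (h1 : Rs1Stmt) (V : Type) [DecidableEq V] (k : ℕ) (c : V → V → Fin k)
    (q σ : ℝ) (β h : ℕ → ℝ) (hβ : ∀ j, 0 < β j) (hh : ∀ j, 0 < h j)
    (h2 : ∀ j, 2 * h j ≤ h (j + 1)) (hσ : 2 * σ ≤ h 0) (R : ℕ) :
    ∀ W : Finset V, 3 + h R ≤ Real.log W.card →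
    (∀ A ⊆ W, 3 ≤ Real.log A.card → ∀ T : ℝ, 0 < T → Real.log T + σ ≤ Real.log A.card →
      (spt c q A T).Nonempty) →
    ∃ U : ℕ → Finset V, U R = W ∧ (∀ j ≤ R, (U j).Nonempty ∧ 3 ≤ Real.log (U j).card) ∧
    (∀ j < R, U j ⊆ U (j + 1) ∧
      Real.log (U (j + 1)).card - Real.log (U j).card ≤ h j / 2 ∧
      RecL c q (U j) (Real.exp (Real.log (U (j + 1)).card - h j)) (β j)
        (h j / 2 - (Real.log (U (j + 1)).card - Real.log (U j).card))) ∧
    ∀ T' : ℝ, T' ≤ Real.exp (Real.log W.card - h R / 2) →
      ∑ j ∈ range R, (Real.log (U (j + 1)).card - Real.log (U j).card) / β j ≤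
        Real.log (spt c q W T').card := by
  have hmono : ∀ j, h 0 ≤ h j := by
    intro j
    induction j with
    | zero => exact le_refl _
    | succ j ih => linarith [h2 j, hh j]
  have hne : ∀ W : Finset V, 3 ≤ Real.log W.card → W.Nonempty := by
    intro W hW
    rw [Finset.nonempty_iff_ne_empty]
    rintro rfl
    rw [Finset.card_empty, Nat.cast_zero, Real.log_zero] at hW
    linarith
  induction R with
  | zero =>
    intro W hW _
    have h3 : 3 ≤ Real.log W.card := by linarith [hh 0]
    refine ⟨fun _ => W, rfl, fun j _ => ⟨hne W h3, h3⟩, fun j hj => absurd hj (by omega), ?_⟩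
    intro T' _
    rw [Finset.range_zero, Finset.sum_empty]
    exact Real.log_natCast_nonneg _
  | succ R ih =>
    intro W hW hsp
    have h3 : 3 ≤ Real.log W.card := by linarith [hh (R + 1)]
    have hR := h2 R
    have hR0 := hh R
    have hm := hmono R
    obtain ⟨T, hT⟩ : ∃ T, T = Real.exp (Real.log W.card - h R) := ⟨_, rfl⟩
    have hTpos : 0 < T := by rw [hT]; exact Real.exp_pos _
    have hTlog : Real.log T = Real.log W.card - h R := by rw [hT, Real.log_exp]
    obtain ⟨U0, hU0W, hU0n, hU0l, hU0r, hU0R⟩ := h1 V k c W q T (β R) (h R / 2) (hβ R)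
      (by linarith) (hne W h3) (by
        intro A hA _ hAl
        exact hsp A hA (by linarith) T hTpos (by rw [hTlog]; linarith))
    obtain ⟨U', hU'R, hU'n, hU'r, hU's⟩ := ih U0 (by linarith) (fun A hA => hsp A (hA.trans hU0W))
    have e1 : ∀ j, j ≤ R → (fun j => if j ≤ R then U' j else W) j = U' j := by
      intro j hj
      exact if_pos hj
    have e2 : (fun j => if j ≤ R then U' j else W) (R + 1) = W := if_neg (by omega)
    refine ⟨fun j => if j ≤ R then U' j else W, e2, ?_, ?_, ?_⟩
    · intro j hj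
      rcases Nat.lt_or_ge R j with hj' | hj'
      · have : j = R + 1 := by omega
        rw [this, e2]
        exact ⟨hne W h3, h3⟩
      · rw [e1 j hj']
        exact hU'n j hj'
    · intro j hj
      rcases Nat.lt_or_ge j R with hj' | hj'
      · rw [e1 j hj'.le, e1 (j + 1) hj']
        exact hU'r j hj'
      · have : j = R := by omega
        rw [this, e2, e1 R (le_refl R), hU'R]
        refine ⟨hU0W, hU0l, ?_⟩
        rw [← hT]
        exact hU0R
    · intro T' hT'
      rw [Finset.sum_range_succ]
      have e3 : ∑ j ∈ range R,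
          (Real.log ((fun j => if j ≤ R then U' j else W) (j + 1)).card -
            Real.log ((fun j => if j ≤ R then U' j else W) j).card) / β j =
          ∑ j ∈ range R, (Real.log (U' (j + 1)).card - Real.log (U' j).card) / β j := by
        apply Finset.sum_congr rfl
        intro j hj
        rw [Finset.mem_range] at hj
        rw [e1 j hj.le, e1 (j + 1) hj]
      rw [e3, e2, e1 R (le_refl R), hU'R]
      have h4 := hU's T (by
        rw [hT, Real.exp_le_exp]
        linarith)
      have h5 : (Real.log W.card - Real.log U0.card) / β R ≤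
          Real.log (spt c q W T).card - Real.log (spt c q U0 T).card := by
        rw [div_le_iff₀ (hβ R)]
        linarith
      have h6 : T' ≤ T := by
        refine hT'.trans ?_
        rw [hT, Real.exp_le_exp]
        linarith
      have h7 := logcard_mono (spt_anti c q W h6)
      linarith

theorem nrs (h1 : Rs1Stmt) : NrsStmt := by
  intro V _ k c W q σ β h R hβ hh h2 hσ hW hk hsp
  obtain ⟨U, hUR, hUn, hUr, hUs⟩ := nrs_aux h1 V k c q σ β h hβ hh h2 hσ R W hW hsp
  refine ⟨U, hUR, hUn, hUr, (hUs _ (le_refl _)).trans ?_⟩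
  have h3 : ∀ s : Finset (Fin k), Real.log s.card ≤ Real.log k := by
    intro s
    have h4 : s.card ≤ k := by
      have := Finset.card_le_univ s
      rwa [Fintype.card_fin] at this
    rcases Nat.eq_zero_or_pos s.card with h0 | h0
    · rw [h0, Nat.cast_zero, Real.log_zero]
      exact Real.log_natCast_nonneg _
    · exact Real.log_le_log (by exact_mod_cast h0) (by exact_mod_cast h4)
  exact h3 _

end Pool.Agent.EGF.H23
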