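import Mathlib
import Pool.Agent.EGF.StmtsR

set_option autoImplicit false

/-! Row PAA of the squad EGF. -/

namespace Pool.Agent.EGF.H23

open Finset Pool.Agent.EGF

/-- Row PAA. -/
theorem paa (hO : Ow2Stmt) (hH : HrgStmt) : PaaStmt := by
  intro V _ k c U s0 s1 L ρ hsym hF0 hF1 hL h640 hs0 hs1 hU hρ hρ1
  obtain ⟨A, B, C0, C1, hA, hB, hd, hC0, hC1, lA, lB, e0, e1⟩ :=
    hO V k c U s0 s1 L hsym hF0 hF1 hL hs0 hs1 hU
  have hs0' : (0 : ℝ) < s0 := by
    have : 0 < s0 := by omega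
    exact_mod_cast this
  have hs1' : (0 : ℝ) < s1 := by
    have : 0 < s1 := by omega
    exact_mod_cast this
  have hUc : (16 : ℝ) ≤ U.card := by exact_mod_cast hU
  have hk1 : (1 : ℝ) ≤ (k : ℝ) + 1 := by
    have : (0 : ℝ) ≤ k := Nat.cast_nonneg k
    linarith
  have key : ∀ S : Finset V,
      (U.card : ℝ) ≤ 16 * ((k : ℝ) + 1) ^ (s0 ^ 2 + s1 ^ 2) * S.card →
      S.Nonempty ∧ Real.log U.card - (3 + ((s0 ^ 2 + s1 ^ 2 : ℕ) : ℝ) * Real.log (k + 1)) ≤
        Real.log S.card := by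
    intro S hS
    have hSn : S.Nonempty := by
      by_contra hne
      rw [Finset.not_nonempty_iff_eq_empty] at hne
      rw [hne] at hS
      simp only [Finset.card_empty, Nat.cast_zero, mul_zero] at hS
      linarith
    refine ⟨hSn, ?_⟩
    have hSc : (0 : ℝ) < S.card := by exact_mod_cast hSn.card_pos
    have hp : (0 : ℝ) < ((k : ℝ) + 1) ^ (s0 ^ 2 + s1 ^ 2) := by positivity
    have h1 := Real.log_le_log (by linarith) hS
    rw [Real.log_mul (by positivity) hSc.ne', Real.log_mul (by norm_num) hp.ne',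
      Real.log_pow] at h1
    have h16 : Real.log 16 ≤ 3 := by
      have h2 : Real.log 16 = 4 * Real.log 2 := by
        rw [show (16 : ℝ) = 2 ^ (4 : ℕ) by norm_num, Real.log_pow]
        norm_num
      have h3 := Real.log_two_lt_d9
      rw [h2]
      linarith
    linarith
  obtain ⟨hAn, hlA⟩ := key A lA
  obtain ⟨hBn, hlB⟩ := key B lB
  have hAc : (0 : ℝ) < A.card := by exact_mod_cast hAn.card_pos
  have hBc : (0 : ℝ) < B.card := by exact_mod_cast hBn.card_pos
  have hAB : (0 : ℝ) < (A.card : ℝ) * B.card := mul_pos hAc hBc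
  -- at least half of the pairs have a colour in C0
  have hsum : ((A.card : ℝ) * B.card) / 2 ≤
      ∑ e ∈ C0, ((((A ×ˢ B).filter fun p => c p.1 p.2 = e).card : ℕ) : ℝ) := by
    have h1 : (A ×ˢ B).card = ((A ×ˢ B).filter fun p => c p.1 p.2 ∈ C0).card +
        (ex c C0 A B).card := by
      unfold ex
      rw [← Finset.card_filter_add_card_filter_not (s := A ×ˢ B) (fun p => c p.1 p.2 ∈ C0)]
    have h2 : ((A ×ˢ B).filter fun p => c p.1 p.2 ∈ C0).card =
        ∑ e ∈ C0, ((A ×ˢ B).filter fun p => c p.1 p.2 = e).card := by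
      rw [Finset.card_eq_sum_card_fiberwise (f := fun p : V × V => c p.1 p.2) (t := C0)]
      · refine Finset.sum_congr rfl fun e he => ?_
        congr 1
        ext p
        simp only [Finset.mem_filter]
        constructor
        · rintro ⟨⟨hp, _⟩, hpe⟩
          exact ⟨hp, hpe⟩
        · rintro ⟨hp, hpe⟩
          exact ⟨⟨hp, by rw [hpe]; exact he⟩, hpe⟩
      · intro p hp
        exact (Finset.mem_filter.mp hp).2
    have h3 : ((A.card : ℝ) * B.card) =
        ∑ e ∈ C0, ((((A ×ˢ B).filter fun p => c p.1 p.2 = e).card : ℕ) : ℝ) +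
          (ex c C0 A B).card := by
      rw [Finset.card_product] at h1
      rw [h2] at h1
      exact_mod_cast h1
    have h4 : 320 * L / s0 ≤ 1 / 2 := by
      rw [div_le_iff₀ hs0']
      linarith
    have h5 : ((ex c C0 A B).card : ℝ) ≤ 1 / 2 * (A.card * B.card) :=
      e0.trans (mul_le_mul_of_nonneg_right h4 hAB.le)
    linarith
  have hC0n : C0.Nonempty := by
    by_contra hne
    rw [Finset.not_nonempty_iff_eq_empty] at hne
    rw [hne, Finset.sum_empty] at hsum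
    linarith
  have hω : (0 : ℝ) < 1 / (4 * s0 ^ 2) := by positivity
  obtain ⟨e, -, he⟩ : ∃ e ∈ C0, 1 / (4 * (s0 : ℝ) ^ 2) * (A.card * B.card) ≤
      ((((A ×ˢ B).filter fun p => c p.1 p.2 = e).card : ℕ) : ℝ) := by
    apply Finset.exists_le_of_sum_le hC0n
    refine le_trans ?_ hsum
    rw [Finset.sum_const, nsmul_eq_mul]
    have h6 : (C0.card : ℝ) ≤ 2 * (s0 : ℝ) ^ 2 := by exact_mod_cast hC0
    calc (C0.card : ℝ) * (1 / (4 * (s0 : ℝ) ^ 2) * (A.card * B.card))
        ≤ (2 * (s0 : ℝ) ^ 2) * (1 / (4 * (s0 : ℝ) ^ 2) * (A.card * B.card)) := by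
          apply mul_le_mul_of_nonneg_right h6
          positivity
      _ = ((A.card : ℝ) * B.card) / 2 := by
          field_simp
          ring
  have hlam : (0 : ℝ) < 320 * L / s1 := by positivity
  have eqG : ∀ A' ⊆ A, ∀ B' ⊆ B, (A' ×ˢ B') ∩ ((A ×ˢ B).filter fun p => c p.1 p.2 = e) =
      (A' ×ˢ B').filter fun p => c p.1 p.2 = e := by
    intro A' hA' B' hB'
    ext p
    simp only [Finset.mem_inter, Finset.mem_filter, Finset.mem_product]
    constructor
    · rintro ⟨h1, _, h2⟩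
      exact ⟨h1, h2⟩
    · rintro ⟨h1, h2⟩
      exact ⟨h1, ⟨hA' h1.1, hB' h1.2⟩, h2⟩
  have eqH : ∀ A' ⊆ A, ∀ B' ⊆ B, (A' ×ˢ B') ∩ (ex c C1 A B) = ex c C1 A' B' := by
    intro A' hA' B' hB'
    ext p
    simp only [ex, Finset.mem_inter, Finset.mem_filter, Finset.mem_product]
    constructor
    · rintro ⟨h1, _, h2⟩
      exact ⟨h1, h2⟩
    · rintro ⟨h1, h2⟩
      exact ⟨h1, ⟨hA' h1.1, hB' h1.2⟩, h2⟩
  obtain ⟨A1, hA1, B1, hB1, hA1n, hB1n, hl1, hl2, hreg⟩ := hH V V A B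
    ((A ×ˢ B).filter fun p => c p.1 p.2 = e) (ex c C1 A B) (1 / (4 * (s0 : ℝ) ^ 2))
    (320 * L / s1) ρ hAn hBn hω hlam hρ hρ1
    (by rw [eqG A (Finset.Subset.refl _) B (Finset.Subset.refl _)]; exact he)
    (by rw [eqH A (Finset.Subset.refl _) B (Finset.Subset.refl _)]; exact e1)
  have hρ2 : ρ ^ 2 ≤ 1 := by nlinarith
  have hρ3 : 0 < ρ ^ 2 := by positivity
  have hw1 : 16 / (1 / (4 * (s0 : ℝ) ^ 2) * ρ ^ 2) = 64 * s0 ^ 2 / ρ ^ 2 := by
    field_simp
    ring
  have hw2 : 16 / (1 / (4 * (s0 : ℝ) ^ 2)) ≤ 64 * s0 ^ 2 / ρ ^ 2 := by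
    have h7 : 16 / (1 / (4 * (s0 : ℝ) ^ 2)) = 64 * s0 ^ 2 := by
      field_simp
      ring
    rw [h7, le_div_iff₀ hρ3]
    have h8 : (0 : ℝ) ≤ 64 * s0 ^ 2 := by positivity
    nlinarith
  refine ⟨A1, B1, C1, e, hA1.trans hA, hB1.trans hB,
    Finset.disjoint_of_subset_left hA1 (Finset.disjoint_of_subset_right hB1 hd), hA1n, hB1n, hC1,
    ?_, ?_, ?_⟩
  · rw [hw1] at hl1
    linarith
  · linarith
  · intro A' hA' B' hB' h9 h10
    obtain ⟨h11, h12⟩ := hreg A' hA' B' hB' h9 h10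
    rw [eqG A' (hA'.trans hA1) B' (hB'.trans hB1)] at h11
    rw [eqH A' (hA'.trans hA1) B' (hB'.trans hB1)] at h12
    constructor
    · have h13 : 1 / (4 * (s0 : ℝ) ^ 2) / 2 = 1 / (8 * s0 ^ 2) := by
        field_simp
        ring
      rw [h13] at h11
      exact h11
    · have h14 : 4 * (320 * L / s1) / (1 / (4 * (s0 : ℝ) ^ 2)) = 5120 * s0 ^ 2 * L / s1 := by
        field_simp
        ring
      rw [h14] at h12
      exact h12

end Pool.Agent.EGF.H23
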