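import Mathlib
import Pool.Agent.EGF.StmtsS

set_option autoImplicit false

/-! Row SPR of the squad EGF. -/

namespace Pool.Agent.EGF.H23

open Finset Pool.Agent.EGF

/-- Row SPR. -/
theorem spr (hO : Ow2Stmt) : SprStmt := by
  intro V _ k c U s L hsym hF0 hL h640 hs hU
  obtain ⟨A, B, C0, C1, hA, hB, hd, hC0, hC1, lA, lB, e0, e1⟩ :=
    hO V k c U s s L hsym hF0 hF0 hL hs hs hU
  have hs' : (0 : ℝ) < s := by
    have : 0 < s := by omega
    exact_mod_cast this
  have hUc : (16 : ℝ) ≤ U.card := by exact_mod_cast hU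
  have hk1 : (1 : ℝ) ≤ (k : ℝ) + 1 := by
    have : (0 : ℝ) ≤ k := Nat.cast_nonneg k
    linarith
  have key : ∀ S : Finset V,
      (U.card : ℝ) ≤ 16 * ((k : ℝ) + 1) ^ (s ^ 2 + s ^ 2) * S.card →
      S.Nonempty ∧ Real.log U.card - (3 + ((s ^ 2 + s ^ 2 : ℕ) : ℝ) * Real.log (k + 1)) ≤
        Real.log S.card := by
    intro S hS
    have hSn : S.Nonempty := by
      by_contra hne
      rw [Finset.not_nonempty_iff_eq_empty] at hne
      rw [hne] at hS
      simp only [Finset.card_empty, Nat.cast_zero, mul_zero] at hS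
      linarith
    refine ⟨hSn, ?_⟩
    have hSc : (0 : ℝ) < S.card := by exact_mod_cast hSn.card_pos
    have hp : (0 : ℝ) < ((k : ℝ) + 1) ^ (s ^ 2 + s ^ 2) := by positivity
    have h1 := Real.log_le_log (by linarith) hS
    rw [Real.log_mul (by positivity) hSc.ne', Real.log_mul (by norm_num) hp.ne',
      Real.log_pow] at h1
    have h16 : Real.log 16 ≤ 3 := by
      have h2 : Real.log 16 = 4 * Real.log 2 := by
        rw [show (16 : ℝ) = 2 ^ (4 : ℕ) by norm_num, Real.log_pow]
        norm_num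
      have h3 := Real.log_two_lt_d9
      rw [h2]
      linarith
    linarith
  obtain ⟨hAn, hlA⟩ := key A lA
  obtain ⟨hBn, hlB⟩ := key B lB
  have hAc : (0 : ℝ) < A.card := by exact_mod_cast hAn.card_pos
  have hBc : (0 : ℝ) < B.card := by exact_mod_cast hBn.card_pos
  have hAB : (0 : ℝ) < (A.card : ℝ) * B.card := mul_pos hAc hBc
  -- at least half of the pairs have a colour in C0
  have hsum : ((A.card : ℝ) * B.card) / 2 ≤
      ∑ e ∈ C0, ((((A ×ˢ B).filter fun p => c p.1 p.2 = e).card : ℕ) : ℝ) := by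
    have h1 : (A ×ˢ B).card = ((A ×ˢ B).filter fun p => c p.1 p.2 ∈ C0).card +
        (ex c C0 A B).card := by
      unfold ex
      rw [← Finset.card_filter_add_card_filter_not (s := A ×ˢ B) (fun p => c p.1 p.2 ∈ C0)]
    have h2 : ((A ×ˢ B).filter fun p => c p.1 p.2 ∈ C0).card =
        ∑ e ∈ C0, ((A ×ˢ B).filter fun p => c p.1 p.2 = e).card := by
      rw [Finset.card_eq_sum_card_fiberwise (f := fun p : V × V => c p.1 p.2) (t := C0)]
      · refine Finset.sum_congr rfl fun e he => ?_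
        congr 1
        ext p
        simp only [Finset.mem_filter]
        constructor
        · rintro ⟨⟨hp, _⟩, hpe⟩
          exact ⟨hp, hpe⟩
        · rintro ⟨hp, hpe⟩
          exact ⟨⟨hp, by rw [hpe]; exact he⟩, hpe⟩
      · intro p hp
        exact (Finset.mem_filter.mp hp).2
    have h3 : ((A.card : ℝ) * B.card) =
        ∑ e ∈ C0, ((((A ×ˢ B).filter fun p => c p.1 p.2 = e).card : ℕ) : ℝ) +
          (ex c C0 A B).card := by
      rw [Finset.card_product] at h1
      rw [h2] at h1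
      exact_mod_cast h1
    have h4 : 320 * L / s ≤ 1 / 2 := by
      rw [div_le_iff₀ hs']
      linarith
    have h5 : ((ex c C0 A B).card : ℝ) ≤ 1 / 2 * (A.card * B.card) :=
      e0.trans (mul_le_mul_of_nonneg_right h4 hAB.le)
    linarith
  have hC0n : C0.Nonempty := by
    by_contra hne
    rw [Finset.not_nonempty_iff_eq_empty] at hne
    rw [hne, Finset.sum_empty] at hsum
    linarith
  have hω : (0 : ℝ) < 1 / (4 * s ^ 2) := by positivity
  obtain ⟨e, -, he⟩ : ∃ e ∈ C0, 1 / (4 * (s : ℝ) ^ 2) * (A.card * B.card) ≤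
      ((((A ×ˢ B).filter fun p => c p.1 p.2 = e).card : ℕ) : ℝ) := by
    apply Finset.exists_le_of_sum_le hC0n
    refine le_trans ?_ hsum
    rw [Finset.sum_const, nsmul_eq_mul]
    have h6 : (C0.card : ℝ) ≤ 2 * (s : ℝ) ^ 2 := by exact_mod_cast hC0
    calc (C0.card : ℝ) * (1 / (4 * (s : ℝ) ^ 2) * (A.card * B.card))
        ≤ (2 * (s : ℝ) ^ 2) * (1 / (4 * (s : ℝ) ^ 2) * (A.card * B.card)) := by
          apply mul_le_mul_of_nonneg_right h6
          positivity
      _ = ((A.card : ℝ) * B.card) / 2 := by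
          field_simp
          ring
  have hcast : ((s ^ 2 + s ^ 2 : ℕ) : ℝ) = 2 * (s : ℝ) ^ 2 := by
    push_cast
    ring
  rw [hcast] at hlA hlB
  exact ⟨A, B, e, hA, hB, hd, hAn, hBn, hlA, hlB, he⟩

end Pool.Agent.EGF.H23
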