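import Pool.Agent.EGF.StmtsU

set_option autoImplicit false

open Finset

namespace Pool.Agent.EGF.H23

theorem sumv {Y : Type} (B1 : Finset Y) (r : ℕ) (h : Y → ℝ) :
    ∑ v ∈ Fintype.piFinset (fun _ : Fin r => B1), ∏ j, h (v j) = (∑ y ∈ B1, h y) ^ r := by
  rw [← Finset.prod_univ_sum (fun _ : Fin r => B1) (fun _ y => h y)]
  simp

theorem ind {X Y : Type} (G : X → Y → ℝ) (hG : Bin G) (i : X) {r : ℕ} (v : Fin r → Y) :
    (if ∀ j, G i (v j) = 0 then (1 : ℝ) else 0) = ∏ j, (1 - G i (v j)) := by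
  split_ifs with h
  · rw [Finset.prod_eq_one]
    intro j _
    rw [h j, sub_zero]
  · push Not at h
    obtain ⟨j, hj⟩ := h
    have h1 : G i (v j) = 1 := (hG i (v j)).resolve_left hj
    exact (Finset.prod_eq_zero (Finset.mem_univ j) (by rw [h1, sub_self])).symm

theorem tpl : TplStmt := by
  intro X Y _ _ I τ B P B1 N G u e1 e2 K T r hG hτ he1 hU hS
  have hT : (0 : ℝ) < T := by exact_mod_cast hS.pos
  obtain ⟨c, hc⟩ : ∃ c : Y → Y → ℝ, c = fun b y => if y ∈ N b then 1 / (T : ℝ) else 0 :=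
    ⟨_, rfl⟩
  obtain ⟨V, hV⟩ : ∃ V : Finset (Fin r → Y), V = Fintype.piFinset (fun _ : Fin r => B1) :=
    ⟨_, rfl⟩
  obtain ⟨pr, hpr⟩ : ∃ pr : Y → (Fin r → Y) → ℝ, pr = fun b v => ∏ j, c b (v j) := ⟨_, rfl⟩
  obtain ⟨om, hom⟩ : ∃ om : X → (Fin r → Y) → ℝ, om = fun i v => ∏ j, (1 - G i (v j)) :=
    ⟨_, rfl⟩
  have hc0 : ∀ b y, 0 ≤ c b y := by
    intro b y
    rw [hc]
    dsimp only
    split_ifs
    · positivity
    · exact le_refl _
  have hc1 : ∀ b y, c b y ≤ 1 / (T : ℝ) := by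
    intro b y
    rw [hc]
    dsimp only
    split_ifs
    · exact le_refl _
    · positivity
  have hpr0 : ∀ b v, 0 ≤ pr b v := by
    intro b v
    rw [hpr]
    exact Finset.prod_nonneg fun j _ => hc0 _ _
  have hpr1 : ∀ b v, pr b v ≤ (1 / (T : ℝ)) ^ r := by
    intro b v
    rw [hpr]
    dsimp only
    calc ∏ j : Fin r, c b (v j) ≤ ∏ _j : Fin r, (1 / (T : ℝ)) :=
          Finset.prod_le_prod (fun j _ => hc0 _ _) (fun j _ => hc1 _ _)
      _ = _ := by simp
  have hcs : ∀ b ∈ P, ∀ g : Y → ℝ, ∑ y ∈ B1, c b y * g y = (∑ y ∈ N b, g y) / T := by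
    intro b hb g
    rw [← Finset.sum_subset (hS.NB b hb)]
    · rw [Finset.sum_div]
      apply Finset.sum_congr rfl
      intro y hy
      rw [hc]
      dsimp only
      rw [if_pos hy]
      ring
    · intro y _ hy
      rw [hc]
      dsimp only
      rw [if_neg hy, zero_mul]
  have key1 : ∀ b ∈ P, ∀ i, ∑ v ∈ V, pr b v * om i v = (1 - (∑ y ∈ N b, G i y) / T) ^ r := by
    intro b hb i
    have h1 : ∀ v ∈ V, pr b v * om i v = ∏ j, (fun y => c b y * (1 - G i y)) (v j) := by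
      intro v _
      rw [hpr, hom]
      dsimp only
      rw [← Finset.prod_mul_distrib]
    rw [Finset.sum_congr rfl h1, hV, sumv B1 r (fun y => c b y * (1 - G i y)), hcs b hb]
    congr 1
    rw [Finset.sum_sub_distrib, Finset.sum_const, hS.cN b hb, nsmul_eq_mul, mul_one, sub_div,
      div_self hT.ne']
  have key0 : ∀ b ∈ P, ∑ v ∈ V, pr b v = 1 := by
    intro b hb
    have h1 : ∀ v ∈ V, pr b v = ∏ j, (fun y => c b y * 1) (v j) := by
      intro v _
      rw [hpr]
      dsimp only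
      simp only [mul_one]
    rw [Finset.sum_congr rfl h1, hV, sumv B1 r (fun y => c b y * 1), hcs b hb,
      Finset.sum_const, hS.cN b hb,
      nsmul_eq_mul, mul_one, div_self hT.ne', one_pow]
  have hsumB : ∀ (v : Fin r → Y) (g : Y → ℝ),
      ∑ b ∈ B, (if b ∈ P then pr b v else 0) * g b = ∑ b ∈ P, pr b v * g b := by
    intro v g
    rw [← Finset.sum_subset hS.PB]
    · apply Finset.sum_congr rfl
      intro b hb
      rw [if_pos hb]
    · intro b _ hb
      rw [if_neg hb, zero_mul]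
  have hsumB1 : ∀ v : Fin r → Y, ∑ b ∈ B, (if b ∈ P then pr b v else 0) = ∑ b ∈ P, pr b v := by
    intro v
    have := hsumB v (fun _ => 1)
    simpa only [mul_one] using this
  have hind : ∀ (v : Fin r → Y) (g : X → ℝ),
      ∑ i ∈ I.filter (fun i => ∀ j, G i (v j) = 0), τ i * g i =
        ∑ i ∈ I, τ i * om i v * g i := by
    intro v g
    rw [Finset.sum_filter]
    apply Finset.sum_congr rfl
    intro i _
    rw [hom]
    dsimp only
    rw [← ind G hG i v]
    split_ifs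
    · ring
    · ring
  have hind1 : ∀ v : Fin r → Y,
      ∑ i ∈ I.filter (fun i => ∀ j, G i (v j) = 0), τ i = ∑ i ∈ I, τ i * om i v := by
    intro v
    have := hind v (fun _ => 1)
    simpa only [mul_one] using this
  have hIv : ∀ v ∈ V, ∑ i ∈ I, τ i * om i v * ∑ b ∈ P, pr b v * G i b ≤
      u * ((∑ b ∈ P, pr b v) * ∑ i ∈ I, τ i * om i v) + e1 * (1 / (T : ℝ)) ^ r +
        e2 * ∑ b ∈ P, pr b v := by
    intro v _
    have h := hU (I.filter (fun i => ∀ j, G i (v j) = 0)) (Finset.filter_subset _ _)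
      (fun b => if b ∈ P then pr b v else 0) ((1 / (T : ℝ)) ^ r) (by positivity) (by
        intro b _
        split_ifs
        · exact ⟨hpr0 b v, hpr1 b v⟩
        · exact ⟨le_refl _, by positivity⟩)
    simp only [hsumB, hsumB1, hind, hind1] at h
    exact h
  have hsum := Finset.sum_le_sum hIv
  have eL : ∑ b ∈ P, ∑ i ∈ I, τ i * G i b * (1 - (∑ y ∈ N b, G i y) / T) ^ r =
      ∑ v ∈ V, ∑ i ∈ I, τ i * om i v * ∑ b ∈ P, pr b v * G i b := by
    have h1 : ∀ b ∈ P, ∑ i ∈ I, τ i * G i b * (1 - (∑ y ∈ N b, G i y) / T) ^ r =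
        ∑ v ∈ V, ∑ i ∈ I, τ i * G i b * (pr b v * om i v) := by
      intro b hb
      rw [Finset.sum_comm]
      apply Finset.sum_congr rfl
      intro i _
      rw [← Finset.mul_sum, key1 b hb i]
    rw [Finset.sum_congr rfl h1, Finset.sum_comm]
    apply Finset.sum_congr rfl
    intro v _
    rw [Finset.sum_comm]
    apply Finset.sum_congr rfl
    intro i _
    rw [Finset.mul_sum]
    apply Finset.sum_congr rfl
    intro b _
    ring
  have eR : ∑ b ∈ P, ∑ i ∈ I, τ i * (1 - (∑ y ∈ N b, G i y) / T) ^ r =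
      ∑ v ∈ V, (∑ b ∈ P, pr b v) * ∑ i ∈ I, τ i * om i v := by
    have h1 : ∀ b ∈ P, ∑ i ∈ I, τ i * (1 - (∑ y ∈ N b, G i y) / T) ^ r =
        ∑ v ∈ V, ∑ i ∈ I, τ i * (pr b v * om i v) := by
      intro b hb
      rw [Finset.sum_comm]
      apply Finset.sum_congr rfl
      intro i _
      rw [← Finset.mul_sum, key1 b hb i]
    rw [Finset.sum_congr rfl h1, Finset.sum_comm]
    apply Finset.sum_congr rfl
    intro v _
    rw [Finset.sum_mul]
    apply Finset.sum_congr rfl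
    intro b _
    rw [Finset.mul_sum]
    apply Finset.sum_congr rfl
    intro i _
    ring
  have eS : ∑ v ∈ V, ∑ b ∈ P, pr b v = T := by
    rw [Finset.sum_comm, Finset.sum_congr rfl key0, Finset.sum_const, hS.cP, nsmul_eq_mul,
      mul_one]
  have eV : (V.card : ℝ) * (e1 * (1 / (T : ℝ)) ^ r) ≤ e1 * K ^ r := by
    have h1 : (V.card : ℝ) = (B1.card : ℝ) ^ r := by
      rw [hV, Fintype.card_piFinset]
      simp
    have h2 : (B1.card : ℝ) * (1 / (T : ℝ)) ≤ K := by
      rw [mul_one_div, div_le_iff₀ hT]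
      exact hS.cB
    have h3 : ((B1.card : ℝ) * (1 / (T : ℝ))) ^ r ≤ K ^ r :=
      pow_le_pow_left₀ (by positivity) h2 r
    calc (V.card : ℝ) * (e1 * (1 / (T : ℝ)) ^ r)
        = e1 * ((B1.card : ℝ) * (1 / (T : ℝ))) ^ r := by rw [h1, mul_pow]; ring
      _ ≤ e1 * K ^ r := mul_le_mul_of_nonneg_left h3 he1
  rw [eL, eR]
  rw [Finset.sum_add_distrib, Finset.sum_add_distrib, ← Finset.mul_sum,
    Finset.sum_const, nsmul_eq_mul, ← Finset.mul_sum V (fun v => ∑ b ∈ P, pr b v) e2, eS] at hsum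
  linarith

end Pool.Agent.EGF.H23
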